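import Pool.Agent.T9h51.PD.Energy

/-!
# The additive energies of all large orders of the values of polynomials at integers with restricted digits
-/

set_option autoImplicit false

namespace Pool.Agent.T9h51.PD

open Finset Polynomial
open Pool.Agent.TH872.Sq
open Pool.Agent.H807R2.Dav
open Pool.Agent.TH212.EH (En enum)

/-- **The values of a polynomial of degree at least two at integers with restricted digits have minimal energy**, for all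
large orders `p`. -/
theorem energy_all (b : ℕ) (hb : 2 ≤ b) (d : ℕ) (hd : 2 ≤ d) (κ : ℤ) (hκ : κ ≠ 0) : ∃ p₀ : ℕ, ∃ C : ℝ, 0 < C ∧
    ∀ p : ℕ, p₀ ≤ p → ∀ k : ℕ,
    ∀ D : ℕ → Finset ℕ, (∀ i < k, D i ⊆ range b ∧ 2 ≤ (D i).card) → ∀ f : ℤ[X], f.natDegree = d → f.leadingCoeff = κ →
    (En p (fun i : {n // n ∈ SD b D k} => f.eval (i.1 : ℤ)) : ℝ) * ((b ^ (d * k) : ℕ) : ℝ) ≤
      C * (Fintype.card {n // n ∈ SD b D k} : ℝ) ^ (2 * p) := by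
  classical
  obtain ⟨j, rfl⟩ : ∃ j, d = j + 2 := ⟨d - 2, by omega⟩
  obtain ⟨p₀, C, hp, hC, hmom⟩ := moment b hb (1 / 2) (by norm_num) j κ hκ 1 le_rfl
  refine ⟨p₀, C, hC, fun p hpp k D hD f hf hfκ => ?_⟩
  obtain ⟨M, hM⟩ : ∃ M, M = b ^ ((j + 2) * k) := ⟨_, rfl⟩
  have hM1 : 1 ≤ M := by rw [hM]; exact Nat.one_le_pow _ _ (by omega)
  have hcard := SD_card_pos b hb D k hD
  have hfc : Fintype.card {n // n ∈ SD b D k} = (SD b D k).card := Fintype.card_coe _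
  have hne : Nonempty {n // n ∈ SD b D k} := by
    rw [← Fintype.card_pos_iff, hfc]
    exact_mod_cast hcard
  have hco : f.coeff (j + 2) = κ := by rw [← hfκ, leadingCoeff, hf]
  have h1 := Pool.Agent.TH872.GQ.En_le p (fun i : {n // n ∈ SD b D k} => f.eval (i.1 : ℤ)) M hM1
  have h2' := hmom k M (by rw [hM]) (by rw [hM, one_mul]) (wD D k) (dig_wD b hb D k hD) 0 f hf.le hco
  have h2 : ∑ t ∈ range M, ‖∑ n ∈ range (b ^ k), ((P b (wD D k) 0 k n : ℝ) : ℂ) * ee ((t : ℝ) * (((f.eval (n : ℤ) : ℤ) : ℝ) / M))‖ ^ (2 * p) ≤ C := by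
    refine le_trans (sum_le_sum fun t _ => ?_) h2'
    apply pow_le_pow_of_le_one (norm_nonneg _) _ (by omega)
    exact norm_avg (by omega) (dig_wD b hb D k hD) 0 k _ 1 (fun n => by rw [norm_ee])
  obtain ⟨Z, hZ⟩ : ∃ Z : ℝ, Z = ((SD b D k).card : ℝ) := ⟨_, rfl⟩
  rw [← hZ] at hcard
  rw [← hM, hfc, ← hZ, mul_comm]
  refine h1.trans ?_
  have h3 : ∀ t ∈ range M, ‖∑ i : {n // n ∈ SD b D k}, ee ((t : ℝ) * (((f.eval (i.1 : ℤ) : ℤ) : ℝ) / M))‖ ^ (2 * p) =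
      Z ^ (2 * p) * ‖∑ n ∈ range (b ^ k), ((P b (wD D k) 0 k n : ℝ) : ℂ) * ee ((t : ℝ) * (((f.eval (n : ℤ) : ℤ) : ℝ) / M))‖ ^ (2 * p) := by
    intro t _
    have e1 : ∑ i : {n // n ∈ SD b D k}, ee ((t : ℝ) * (((f.eval (i.1 : ℤ) : ℤ) : ℝ) / M)) =
        ∑ n ∈ SD b D k, ee ((t : ℝ) * (((f.eval (n : ℤ) : ℤ) : ℝ) / M)) := by
      rw [← sum_coe_sort (SD b D k) (fun n => ee ((t : ℝ) * (((f.eval (n : ℤ) : ℤ) : ℝ) / M)))]
    have e3 : ∑ n ∈ range (b ^ k), ((P b (wD D k) 0 k n : ℝ) : ℂ) * ee ((t : ℝ) * (((f.eval (n : ℤ) : ℤ) : ℝ) / M)) =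
        (((1 / Z : ℝ)) : ℂ) * ∑ n ∈ SD b D k, ee ((t : ℝ) * (((f.eval (n : ℤ) : ℤ) : ℝ) / M)) := by
      have h4 : ∀ n ∈ range (b ^ k), ((P b (wD D k) 0 k n : ℝ) : ℂ) * ee ((t : ℝ) * (((f.eval (n : ℤ) : ℤ) : ℝ) / M)) =
          if n ∈ SD b D k then ((1 / Z : ℝ) : ℂ) * ee ((t : ℝ) * (((f.eval (n : ℤ) : ℤ) : ℝ) / M)) else 0 := by
        intro n hn
        rw [P_wD b hb D k hD n hn, ← hZ]
        split_ifs
        · rfl
        · simp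
      rw [sum_congr rfl h4, ← sum_filter, mul_sum]
      apply sum_congr _ fun _ _ => rfl
      ext n
      rw [mem_filter]
      refine ⟨fun h => h.2, fun h => ⟨?_, h⟩⟩
      unfold SD at h
      exact (mem_filter.1 h).1
    rw [e1, e3, norm_mul, mul_pow, ← mul_assoc]
    have e4 : ‖(((1 / Z : ℝ)) : ℂ)‖ = 1 / Z := by
      rw [Complex.norm_real, Real.norm_eq_abs, abs_of_pos (by positivity)]
    rw [e4, ← mul_pow, mul_one_div_cancel hcard.ne', one_pow, one_mul]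
  rw [sum_congr rfl h3, ← mul_sum, mul_comm]
  exact mul_le_mul_of_nonneg_right h2 (by positivity)

/-- several families at once, at a common scale `M` -/
theorem energy_scale {r : ℕ} (b d : Fin r → ℕ) (hb : ∀ i, 2 ≤ b i) (hd : ∀ i, 2 ≤ d i) (κ : Fin r → ℤ) (hκ : ∀ i, κ i ≠ 0)
    (B : ℕ) : ∃ p M₀ : ℕ, ∀ M : ℕ, M₀ ≤ M → ∀ (i : Fin r) (k : ℕ), M ≤ B * b i ^ (d i * k) →
    ∀ D : ℕ → Finset ℕ, (∀ l < k, D l ⊆ range (b i) ∧ 2 ≤ (D l).card) → ∀ f : ℤ[X], f.natDegree = d i →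
    f.leadingCoeff = κ i →
    (En p (fun n : {n // n ∈ SD (b i) D k} => f.eval (n.1 : ℤ)) : ℝ) * (M : ℝ) ≤
      Real.log M ^ 1 * (Fintype.card {n // n ∈ SD (b i) D k} : ℝ) ^ (2 * p) := by
  choose p₀ C hC hE using fun i => energy_all (b i) (hb i) (d i) (hd i) (κ i) (hκ i)
  obtain ⟨Z, hZ⟩ := exists_nat_ge (∑ i, B * C i)
  obtain ⟨n1, h1⟩ := Pool.Agent.H373R2.T7.ev_L' (Z : ℝ)
  refine ⟨univ.sup p₀, n1, fun M hM i k hk D hD f hf hfκ => ?_⟩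
  have hL := h1 M hM
  have h2 := hE i (univ.sup p₀) (le_sup (f := p₀) (mem_univ i)) k D hD f hf hfκ
  have h3 : B * C i ≤ Z := by
    refine le_trans ?_ hZ
    exact single_le_sum (f := fun i => (B : ℝ) * C i) (fun i _ => mul_nonneg (Nat.cast_nonneg _) (hC i).le) (mem_univ i)
  obtain ⟨E, hEd⟩ : ∃ E : ℝ, E = (En (univ.sup p₀) (fun n : {n // n ∈ SD (b i) D k} => f.eval (n.1 : ℤ)) : ℝ) := ⟨_, rfl⟩
  have hE0 : 0 ≤ E := by rw [hEd]; positivity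
  rw [← hEd] at h2 ⊢
  have h4 : (M : ℝ) ≤ B * ((b i ^ (d i * k) : ℕ) : ℝ) := by exact_mod_cast hk
  rw [pow_one]
  calc E * (M : ℝ) ≤ E * (B * ((b i ^ (d i * k) : ℕ) : ℝ)) := mul_le_mul_of_nonneg_left h4 hE0
    _ = B * (E * ((b i ^ (d i * k) : ℕ) : ℝ)) := by ring
    _ ≤ B * (C i * (Fintype.card {n // n ∈ SD (b i) D k} : ℝ) ^ (2 * univ.sup p₀)) :=
        mul_le_mul_of_nonneg_left h2 (Nat.cast_nonneg _)
    _ = (B * C i) * (Fintype.card {n // n ∈ SD (b i) D k} : ℝ) ^ (2 * univ.sup p₀) := by ring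
    _ ≤ _ := by
        apply mul_le_mul_of_nonneg_right _ (by positivity)
        linarith

end Pool.Agent.T9h51.PD
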