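import Pool.Agent.T9h51.PD.Moment
import Pool.Agent.TH872.GQ.En

/-!
# The additive energy of the values of polynomials of arbitrary degree at integers with restricted digits
-/

set_option autoImplicit false

namespace Pool.Agent.T9h51.PD

open Finset Polynomial
open Pool.Agent.TH872.Sq
open Pool.Agent.H807R2.Dav
open Pool.Agent.TH212.EH (En enum)

/-- **Moments.** -/
theorem moment (b : ℕ) (hb : 2 ≤ b) (η : ℝ) (hη : 0 < η) (j : ℕ) (κ : ℤ) (hκ : κ ≠ 0) (F : ℕ) (hF : 1 ≤ F) :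
    ∃ p : ℕ, ∃ C : ℝ, 1 ≤ p ∧ 0 < C ∧ ∀ k M : ℕ, b ^ ((j + 2) * k) ≤ M → M ≤ F * b ^ ((j + 2) * k) →
    ∀ (w : ℕ → ℕ → ℝ), Dig b η w → ∀ (i : ℕ) (f : ℤ[X]), f.natDegree ≤ j + 2 → f.coeff (j + 2) = κ →
    ∑ t ∈ range M, ‖∑ n ∈ range (b ^ k), ((P b w i k n : ℝ) : ℂ) * ee ((t : ℝ) * (((f.eval (n : ℤ) : ℤ) : ℝ) / M))‖ ^ (2 * p) ≤ C := by
  classical
  by_cases hη1 : η ≤ 1
  swap
  · exact ⟨1, 1, le_rfl, one_pos, fun k M _ _ w hw => absurd (eta_le hw) hη1⟩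
  have hb2 : (2 : ℝ) ≤ b := by exact_mod_cast hb
  have hb0 : (0 : ℝ) < b := by linarith
  obtain ⟨s, hs1, hweyl⟩ := weyl_scale b hb η hη hη1 j
  obtain ⟨τ, hτ⟩ : ∃ τ, τ = 1 - η / 2 := ⟨_, rfl⟩
  have hτ0 : 0 ≤ τ := by rw [hτ]; linarith
  have hτ1 : τ < 1 := by rw [hτ]; linarith
  rw [← hτ] at hweyl
  obtain ⟨Z, hZ⟩ : ∃ Z : ℕ, Z = b.factorial * (j + 2).factorial := ⟨_, rfl⟩
  have hZ1 : 1 ≤ Z := by rw [hZ]; exact Nat.mul_pos b.factorial_pos (j + 2).factorial_pos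
  obtain ⟨E1, hE1⟩ : ∃ E1, E1 = j + 1 + tr j := ⟨_, rfl⟩
  obtain ⟨E2, hE2⟩ : ∃ E2, E2 = j + 1 + 2 * (j + 1) ^ 2 + tr j := ⟨_, rfl⟩
  rw [← hZ, ← hE1, ← hE2] at hweyl
  obtain ⟨A, hA⟩ : ∃ A, A = 3 * E1 + E2 := ⟨_, rfl⟩
  obtain ⟨c, hc⟩ : ∃ c, c = 4 * (j + 1) := ⟨_, rfl⟩
  rw [← hc] at hweyl
  obtain ⟨q₀, hq₀⟩ := exists_pow_lt_of_lt_one (show 0 < 1 / (b : ℝ) ^ (A + 1 + (j + 2) * c) by positivity) hτ1
  obtain ⟨q, hq⟩ : ∃ q, q = q₀ + 1 := ⟨_, rfl⟩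
  obtain ⟨y, hy⟩ : ∃ y, y = τ ^ q := ⟨_, rfl⟩
  have hy0 : 0 ≤ y := by rw [hy]; exact pow_nonneg hτ0 _
  have hyb : y ≤ 1 / (b : ℝ) ^ (A + 1 + (j + 2) * c) := by
    rw [hy, hq]
    exact (pow_le_pow_of_le_one hτ0 hτ1.le (by omega)).trans hq₀.le
  obtain ⟨κ', hκ'⟩ : ∃ κ' : ℕ, κ' = κ.natAbs := ⟨_, rfl⟩
  have hκ1 : 1 ≤ κ' := by rw [hκ']; exact Int.natAbs_pos.2 hκ
  obtain ⟨C₁, hC₁⟩ : ∃ C₁ : ℕ, C₁ = 3 * F * Z ^ 3 * κ' * b ^ (2 * (j + 1)) := ⟨_, rfl⟩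
  obtain ⟨D, hD⟩ : ∃ D : ℝ, D = ((j : ℝ) + 1) ^ q := ⟨_, rfl⟩
  have hD0 : 0 ≤ D := by rw [hD]; positivity
  refine ⟨2 ^ j * s * q, C₁ * (b : ℝ) ^ (A * 2) + 2 * (D * C₁ * (b : ℝ) ^ A) + D * (F * (b : ℝ) ^ ((j + 2) * c)) +
      F * (b : ℝ) ^ ((j + 2) * (2 * c)), ?_, ?_, fun k M hM1 hM2 w hw i f hf hfκ => ?_⟩
  · have h1 : 0 < 2 ^ j := by positivity
    exact Nat.mul_pos (Nat.mul_pos h1 hs1) (by omega)
  · have : (0 : ℝ) < F := by exact_mod_cast hF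
    positivity
  have hM0 : 1 ≤ M := le_trans (Nat.one_le_pow _ _ (by omega)) hM1
  have hMr : (0 : ℝ) < M := by exact_mod_cast hM0
  obtain ⟨g, hg⟩ : ∃ g : ℕ → ℝ[X], ∀ t, g t = Polynomial.C ((t : ℝ) / M) * f.map (Int.castRingHom ℝ) := ⟨_, fun _ => rfl⟩
  have hgdeg : ∀ t, (g t).natDegree ≤ j + 2 := by
    intro t
    rw [hg]
    exact (natDegree_C_mul_le _ _).trans ((natDegree_map_le).trans hf)
  have hgco : ∀ t, (g t).coeff (j + 2) = (t : ℝ) / M * κ := by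
    intro t
    rw [hg, coeff_C_mul, coeff_map, hfκ]
    rfl
  have hWg : ∀ t : ℕ, ‖∑ n ∈ range (b ^ k), ((P b w i k n : ℝ) : ℂ) * ee ((t : ℝ) * (((f.eval (n : ℤ) : ℤ) : ℝ) / M))‖ =
      W b w i k (g t) := by
    intro t
    unfold W
    congr 1
    apply sum_congr rfl
    intro n _
    congr 2
    rw [hg, eval_mul, eval_C]
    have h1 : (f.map (Int.castRingHom ℝ)).eval (n : ℝ) = ((f.eval (n : ℤ) : ℤ) : ℝ) := by
      have := eval_intCast_map (Int.castRingHom ℝ) f (n : ℤ)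
      rw [Int.cast_natCast] at this
      rw [this]
      rfl
    rw [h1]
    ring
  simp only [hWg]
  have e1 : 2 * (2 ^ j * s * q) = 2 ^ (j + 1) * s * q := by rw [pow_succ]; ring
  rw [e1]
  apply sum_moment b M k c (j + 2) (2 ^ (j + 1) * s * q) A F hb (by omega) (fun t => W b w i k (g t))
    (fun t => W_nonneg _ _ _ _ _) (fun t => W_le_one (by omega) hw _ _ _)
    (fun L => Maj M κ' (Z * b ^ (E1 * L)) (F * Z * b ^ ((E1 + E2) * L + 2 * (j + 1)))) y D C₁ hy0 hyb hD0 (Nat.cast_nonneg _) hM2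
  · intro L S hS
    have h1 := count_maj M κ' (Z * b ^ (E1 * L)) (F * Z * b ^ ((E1 + E2) * L + 2 * (j + 1))) hM0 hκ1
    have h2 : S.card ≤ Z * b ^ (E1 * L) * ((2 * (F * Z * b ^ ((E1 + E2) * L + 2 * (j + 1))) + 1) * (κ' * (Z * b ^ (E1 * L)))) := by
      refine le_trans (card_le_card ?_) h1
      intro t ht
      rw [mem_filter, mem_range]
      exact hS t ht
    have h3 : Z * b ^ (E1 * L) * ((2 * (F * Z * b ^ ((E1 + E2) * L + 2 * (j + 1))) + 1) * (κ' * (Z * b ^ (E1 * L)))) ≤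
        C₁ * b ^ (A * L) := by
      have h4 : 2 * (F * Z * b ^ ((E1 + E2) * L + 2 * (j + 1))) + 1 ≤ 3 * (F * Z * b ^ ((E1 + E2) * L + 2 * (j + 1))) := by
        have : 0 < F * Z * b ^ ((E1 + E2) * L + 2 * (j + 1)) := by positivity
        omega
      calc Z * b ^ (E1 * L) * ((2 * (F * Z * b ^ ((E1 + E2) * L + 2 * (j + 1))) + 1) * (κ' * (Z * b ^ (E1 * L)))) ≤
          Z * b ^ (E1 * L) * ((3 * (F * Z * b ^ ((E1 + E2) * L + 2 * (j + 1)))) * (κ' * (Z * b ^ (E1 * L)))) :=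
            Nat.mul_le_mul_left _ (Nat.mul_le_mul_right _ h4)
        _ = 3 * F * Z ^ 3 * κ' * (b ^ (E1 * L) * b ^ (E1 * L) * b ^ ((E1 + E2) * L + 2 * (j + 1))) := by ring
        _ = 3 * F * Z ^ 3 * κ' * (b ^ (2 * (j + 1)) * b ^ (A * L)) := by
            congr 1
            rw [← pow_add, ← pow_add, ← pow_add, hA]
            congr 1
            ring
        _ = _ := by rw [hC₁]; ring
    exact_mod_cast h2.trans h3
  · intro t L hL1 hL2 hnot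
    rcases hweyl k L hL1 hL2 w hw i (g t) (hgdeg t) with h | ⟨Q, a, hQ1, hQ2, hQ3⟩
    · calc W b w i k (g t) ^ (2 ^ (j + 1) * s * q) = (W b w i k (g t) ^ (2 ^ (j + 1) * s)) ^ q := by rw [← pow_mul]
        _ ≤ (((j : ℝ) + 1) * τ ^ L) ^ q := pow_le_pow_left₀ (pow_nonneg (W_nonneg _ _ _ _ _) _) h q
        _ = _ := by rw [mul_pow, hD, hy, ← pow_mul, ← pow_mul, mul_comm L q]
    · exfalso
      apply hnot
      rw [hgco] at hQ3
      have hQr : (0 : ℝ) < Q := by exact_mod_cast hQ1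
      have h1 : |(t : ℝ) * κ * Q - a * M| ≤ ((F * Z * b ^ ((E1 + E2) * L + 2 * (j + 1)) : ℕ) : ℝ) := by
        have h2 : |(t : ℝ) * κ * Q - a * M| = |(t : ℝ) / M * κ - a / Q| * (Q * M) := by
          have e : (t : ℝ) * κ * Q - a * M = ((t : ℝ) / M * κ - a / Q) * (Q * M) := by field_simp
          rw [e, abs_mul, abs_of_pos (by positivity : (0 : ℝ) < (Q : ℝ) * M)]
        rw [h2]
        have h3 : (Q * M : ℝ) ≤ ((Z * b ^ (E1 * L) : ℕ) : ℝ) * (F * (b : ℝ) ^ ((j + 2) * k)) := by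
          apply mul_le_mul
          · exact_mod_cast hQ2
          · exact_mod_cast hM2
          · positivity
          · positivity
        calc |(t : ℝ) / M * κ - a / Q| * (Q * M) ≤ |(t : ℝ) / M * κ - a / Q| * (((Z * b ^ (E1 * L) : ℕ) : ℝ) * (F * (b : ℝ) ^ ((j + 2) * k))) :=
              mul_le_mul_of_nonneg_left h3 (abs_nonneg _)
          _ = (|(t : ℝ) / M * κ - a / Q| * (b : ℝ) ^ ((j + 2) * k)) * (((Z * b ^ (E1 * L) : ℕ) : ℝ) * F) := by ring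
          _ ≤ (b : ℝ) ^ (E2 * L + 2 * (j + 1)) * (((Z * b ^ (E1 * L) : ℕ) : ℝ) * F) := mul_le_mul_of_nonneg_right hQ3 (by positivity)
          _ = _ := by push_cast; ring
      rcases le_total 0 κ with hpos | hneg
      · refine ⟨Q, a, hQ1, hQ2, ?_⟩
        have h4 : ((κ' : ℕ) : ℤ) = κ := by rw [hκ']; exact Int.natAbs_of_nonneg hpos
        have h5 : (((κ' * Q * t : ℕ) : ℤ) - a * M : ℤ) = t * κ * Q - a * M := by push_cast; rw [h4]; ring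
        rw [h5]
        exact_mod_cast h1
      · refine ⟨Q, -a, hQ1, hQ2, ?_⟩
        have h4 : ((κ' : ℕ) : ℤ) = -κ := by rw [hκ']; exact Int.ofNat_natAbs_of_nonpos hneg
        have h5 : (((κ' * Q * t : ℕ) : ℤ) - -a * M : ℤ) = -(t * κ * Q - a * M) := by push_cast; rw [h4]; ring
        rw [h5, abs_neg]
        exact_mod_cast h1

/-- **The values of a polynomial of degree at least two at integers with restricted digits have minimal energy**, up to a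
constant which depends only on the base, the degree and the leading coefficient. -/
theorem energy (b : ℕ) (hb : 2 ≤ b) (j : ℕ) (κ : ℤ) (hκ : κ ≠ 0) : ∃ p : ℕ, ∃ C : ℝ, 0 < C ∧ ∀ k : ℕ,
    ∀ D : ℕ → Finset ℕ, (∀ i < k, D i ⊆ range b ∧ 2 ≤ (D i).card) → ∀ f : ℤ[X], f.natDegree ≤ j + 2 → f.coeff (j + 2) = κ →
    (En p (fun i : {n // n ∈ SD b D k} => f.eval (i.1 : ℤ)) : ℝ) * ((b ^ ((j + 2) * k) : ℕ) : ℝ) ≤
      C * (Fintype.card {n // n ∈ SD b D k} : ℝ) ^ (2 * p) := by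
  classical
  obtain ⟨p, C, hp, hC, hmom⟩ := moment b hb (1 / 2) (by norm_num) j κ hκ 1 le_rfl
  refine ⟨p, C, hC, fun k D hD f hf hfκ => ?_⟩
  obtain ⟨M, hM⟩ : ∃ M, M = b ^ ((j + 2) * k) := ⟨_, rfl⟩
  have hM1 : 1 ≤ M := by rw [hM]; exact Nat.one_le_pow _ _ (by omega)
  have hcard := SD_card_pos b hb D k hD
  have hfc : Fintype.card {n // n ∈ SD b D k} = (SD b D k).card := Fintype.card_coe _
  have hne : Nonempty {n // n ∈ SD b D k} := by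
    rw [← Fintype.card_pos_iff, hfc]
    exact_mod_cast hcard
  have h1 := Pool.Agent.TH872.GQ.En_le p (fun i : {n // n ∈ SD b D k} => f.eval (i.1 : ℤ)) M hM1
  have h2 := hmom k M (by rw [hM]) (by rw [hM, one_mul]) (wD D k) (dig_wD b hb D k hD) 0 f hf hfκ
  obtain ⟨Z, hZ⟩ : ∃ Z : ℝ, Z = ((SD b D k).card : ℝ) := ⟨_, rfl⟩
  rw [← hZ] at hcard
  rw [← hM, hfc, ← hZ, mul_comm]
  refine h1.trans ?_
  have h3 : ∀ t ∈ range M, ‖∑ i : {n // n ∈ SD b D k}, ee ((t : ℝ) * (((f.eval (i.1 : ℤ) : ℤ) : ℝ) / M))‖ ^ (2 * p) =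
      Z ^ (2 * p) * ‖∑ n ∈ range (b ^ k), ((P b (wD D k) 0 k n : ℝ) : ℂ) * ee ((t : ℝ) * (((f.eval (n : ℤ) : ℤ) : ℝ) / M))‖ ^ (2 * p) := by
    intro t _
    have e1 : ∑ i : {n // n ∈ SD b D k}, ee ((t : ℝ) * (((f.eval (i.1 : ℤ) : ℤ) : ℝ) / M)) =
        ∑ n ∈ SD b D k, ee ((t : ℝ) * (((f.eval (n : ℤ) : ℤ) : ℝ) / M)) := by
      rw [← sum_coe_sort (SD b D k) (fun n => ee ((t : ℝ) * (((f.eval (n : ℤ) : ℤ) : ℝ) / M)))]
    have e3 : ∑ n ∈ range (b ^ k), ((P b (wD D k) 0 k n : ℝ) : ℂ) * ee ((t : ℝ) * (((f.eval (n : ℤ) : ℤ) : ℝ) / M)) =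
        (((1 / Z : ℝ)) : ℂ) * ∑ n ∈ SD b D k, ee ((t : ℝ) * (((f.eval (n : ℤ) : ℤ) : ℝ) / M)) := by
      have h4 : ∀ n ∈ range (b ^ k), ((P b (wD D k) 0 k n : ℝ) : ℂ) * ee ((t : ℝ) * (((f.eval (n : ℤ) : ℤ) : ℝ) / M)) =
          if n ∈ SD b D k then ((1 / Z : ℝ) : ℂ) * ee ((t : ℝ) * (((f.eval (n : ℤ) : ℤ) : ℝ) / M)) else 0 := by
        intro n hn
        rw [P_wD b hb D k hD n hn, ← hZ]
        split_ifs
        · rfl
        · simp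
      rw [sum_congr rfl h4, ← sum_filter, mul_sum]
      apply sum_congr _ fun _ _ => rfl
      ext n
      rw [mem_filter]
      refine ⟨fun h => h.2, fun h => ⟨?_, h⟩⟩
      unfold SD at h
      exact (mem_filter.1 h).1
    rw [e1, e3, norm_mul, mul_pow, ← mul_assoc]
    have e4 : ‖(((1 / Z : ℝ)) : ℂ)‖ = 1 / Z := by
      rw [Complex.norm_real, Real.norm_eq_abs, abs_of_pos (by positivity)]
    rw [e4, ← mul_pow, mul_one_div_cancel hcard.ne', one_pow, one_mul]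
  rw [sum_congr rfl h3, ← mul_sum, mul_comm]
  exact mul_le_mul_of_nonneg_right h2 (by positivity)

/-- the hypothesis of the theorems on thin families -/
theorem energy_hyp (b : ℕ) (hb : 2 ≤ b) (j : ℕ) (κ : ℤ) (hκ : κ ≠ 0) : ∃ p k₀ : ℕ, ∀ k : ℕ, k₀ ≤ k →
    ∀ D : ℕ → Finset ℕ, (∀ i < k, D i ⊆ range b ∧ 2 ≤ (D i).card) → ∀ f : ℤ[X], f.natDegree ≤ j + 2 → f.coeff (j + 2) = κ →
    (En p (fun i : {n // n ∈ SD b D k} => f.eval (i.1 : ℤ)) : ℝ) * ((b ^ ((j + 2) * k) : ℕ) : ℝ) ≤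
      Real.log ((b ^ ((j + 2) * k) : ℕ) : ℝ) ^ 1 * (Fintype.card {n // n ∈ SD b D k} : ℝ) ^ (2 * p) := by
  obtain ⟨p, C, hC, hE⟩ := energy b hb j κ hκ
  obtain ⟨K2, hK2⟩ := exists_nat_ge C
  refine ⟨p, K2 * 2 + 1, fun k hk D hD f hf hfκ => ?_⟩
  refine (hE k D hD f hf hfκ).trans ?_
  apply mul_le_mul_of_nonneg_right _ (by positivity)
  rw [pow_one]
  have hb2 : (2 : ℝ) ≤ b := by exact_mod_cast hb
  push_cast
  rw [Real.log_pow]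
  have h1 : (1 : ℝ) / 2 ≤ Real.log b := by
    have h2 := Real.log_two_gt_d9
    have h3 : Real.log 2 ≤ Real.log b := Real.log_le_log (by norm_num) hb2
    linarith
  have h2 : ((K2 * 2 + 1 : ℕ) : ℝ) ≤ k := by exact_mod_cast hk
  push_cast at h2 ⊢
  have h3 : (2 : ℝ) * k ≤ ((j : ℝ) + 2) * k := by
    have : (0 : ℝ) ≤ (j : ℝ) * k := by positivity
    linarith
  have hk0 : (0 : ℝ) ≤ k := Nat.cast_nonneg k
  calc C ≤ K2 := hK2
    _ ≤ (2 * k) * (1 / 2) := by linarith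
    _ ≤ _ := mul_le_mul h3 h1 (by norm_num) (by positivity)

end Pool.Agent.T9h51.PD
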