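import Pool.Agent.T9h51.PD.Weyl

/-!
# Moments of exponential sums over polynomial values at integers with independent random digits
-/

set_option autoImplicit false

namespace Pool.Agent.T9h51.PD

open Finset Polynomial
open Pool.Agent.TH872.Sq
open Pool.Agent.H807R2.Dav

lemma small_growth (η ε : ℝ) (hη : 0 < η) (hη1 : η ≤ 1) (hε : 0 ≤ ε) (c : ℕ) (hc : 4 * c * ε ≤ η) :
    (1 - η) * (1 + ε) ^ c ≤ 1 - η / 2 := by
  have hc0 : (0 : ℝ) ≤ c := Nat.cast_nonneg c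
  have h0 : (c : ℝ) * ε ≤ η / 4 := by linarith
  rcases Nat.eq_zero_or_pos c with hz | hz
  · subst hz
    rw [pow_zero]
    linarith
  have hc1 : (1 : ℝ) ≤ c := by exact_mod_cast hz
  have he1 : ε ≤ 1 / 4 := by nlinarith
  have h1 : 1 + (c : ℝ) * (-ε) ≤ (1 + (-ε)) ^ c := one_add_mul_le_pow (by linarith) c
  have h2 : (1 - c * ε) * (1 + ε) ^ c ≤ 1 := by
    calc (1 - c * ε) * (1 + ε) ^ c ≤ (1 + (-ε)) ^ c * (1 + ε) ^ c :=
          mul_le_mul_of_nonneg_right (by linarith) (by positivity)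
      _ = ((1 + (-ε)) * (1 + ε)) ^ c := by rw [mul_pow]
      _ ≤ 1 := pow_le_one₀ (by nlinarith) (by nlinarith)
  have h3 : 1 - η ≤ (1 - η / 2) * (1 - c * ε) := by nlinarith
  calc (1 - η) * (1 + ε) ^ c ≤ ((1 - η / 2) * (1 - c * ε)) * (1 + ε) ^ c :=
        mul_le_mul_of_nonneg_right h3 (by positivity)
    _ = (1 - η / 2) * ((1 - c * ε) * (1 + ε) ^ c) := by ring
    _ ≤ (1 - η / 2) * 1 := mul_le_mul_of_nonneg_left h2 (by linarith)
    _ = _ := mul_one _

/-- **The Weyl inequality** for polynomials of arbitrary degree at integers with random digits, at the scale `L` -/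
theorem weyl_scale (b : ℕ) (hb : 2 ≤ b) (η : ℝ) (hη : 0 < η) (hη1 : η ≤ 1) (j : ℕ) : ∃ s : ℕ, 1 ≤ s ∧
    ∀ k L : ℕ, 2 ≤ L → 4 * (j + 1) * L ≤ k →
    ∀ (w : ℕ → ℕ → ℝ), Dig b η w → ∀ (i : ℕ) (g : ℝ[X]), g.natDegree ≤ j + 2 →
    W b w i k g ^ (2 ^ (j + 1) * s) ≤ (j + 1) * (1 - η / 2) ^ L ∨
    ∃ Q : ℕ, ∃ a : ℤ, 1 ≤ Q ∧ Q ≤ b.factorial * (j + 2).factorial * b ^ ((j + 1 + tr j) * L) ∧
      |g.coeff (j + 2) - a / Q| * (b : ℝ) ^ ((j + 2) * k) ≤
        (b : ℝ) ^ ((j + 1 + 2 * (j + 1) ^ 2 + tr j) * L + 2 * (j + 1)) := by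
  have hb2 : (2 : ℝ) ≤ b := by exact_mod_cast hb
  have hb0 : (0 : ℝ) < b := by linarith
  obtain ⟨hg0, hg1⟩ := g0_bounds b hb η hη hη1
  obtain ⟨s₀, hs₀⟩ := exists_pow_lt_of_lt_one (show 0 < η / (2 * b * (4 * (4 * (j + 1)))) by positivity) hg1
  obtain ⟨s, hs⟩ : ∃ s, s = s₀ + 1 := ⟨_, rfl⟩
  have hγs : (g0 b η) ^ s ≤ η / (2 * b * (4 * (4 * (j + 1)))) := by
    rw [hs, pow_succ]
    have : 0 ≤ (g0 b η) ^ s₀ := pow_nonneg hg0 _
    nlinarith
  obtain ⟨ε, hε⟩ : ∃ ε, ε = 2 * b * (g0 b η) ^ s := ⟨_, rfl⟩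
  have hε0 : 0 ≤ ε := by rw [hε]; have := pow_nonneg hg0 s; positivity
  have hε1 : 4 * ((4 * (j + 1) : ℕ) : ℝ) * ε ≤ η := by
    rw [hε]
    have h1 : (g0 b η) ^ s * (2 * b * (4 * (4 * (j + 1)))) ≤ η := (le_div_iff₀ (by positivity)).1 hγs
    push_cast
    linarith
  have hτ := small_growth η ε hη hη1 hε0 (4 * (j + 1)) hε1
  have hτ0 : 0 ≤ 1 - η / 2 := by linarith
  refine ⟨s, by omega, fun k L hL2 hLk w hw i g hg => ?_⟩
  obtain ⟨J, hJ⟩ : ∃ J, J = 2 * ((j + 1) * L) + 2 := ⟨_, rfl⟩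
  have h2tr := two_tr j
  have hL1 : 1 * 2 ≤ (j + 1) * L := Nat.mul_le_mul (by omega) hL2
  have hk4 : 4 * ((j + 1) * L) ≤ k := by rw [← mul_assoc]; exact hLk
  have hS : (1 - η) ^ L * (1 + 2 * b * (g0 b η) ^ s) ^ J ≤ (1 - η / 2) ^ L := by
    rw [← hε]
    calc (1 - η) ^ L * (1 + ε) ^ J ≤ (1 - η) ^ L * (1 + ε) ^ (4 * (j + 1) * L) := by
          apply mul_le_mul_of_nonneg_left _ (pow_nonneg (by linarith) _)
          apply pow_le_pow_right₀ (by linarith)
          rw [mul_assoc]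
          omega
      _ = ((1 - η) * (1 + ε) ^ (4 * (j + 1))) ^ L := by rw [mul_pow, ← pow_mul]
      _ ≤ (1 - η / 2) ^ L := pow_le_pow_left₀ (mul_nonneg (by linarith) (by positivity)) hτ L
  have h1 : (1 - η) ^ L ≤ (1 - η / 2) ^ L := pow_le_pow_left₀ (by linarith) (by linarith) L
  -- the range of the positions
  have hrange : L * tr j + ((j + 2) * J + L * tr j) ≤ (j + 2) * k := by
    have e1 : L * tr j + ((j + 2) * J + L * tr j) = (j + 2) * ((j + 1) * L + J) := by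
      have : L * tr j + L * tr j = L * (2 * tr j) := by ring
      calc L * tr j + ((j + 2) * J + L * tr j) = (j + 2) * J + (L * tr j + L * tr j) := by ring
        _ = _ := by rw [this, h2tr]; ring
    rw [e1]
    exact Nat.mul_le_mul_left _ (by omega)
  obtain ⟨l1, hl1⟩ : ∃ l1, l1 = (j + 2) * k - ((j + 2) * J + L * tr j) := ⟨_, rfl⟩
  by_cases hcase : ∀ l, L * tr j ≤ l → l ≤ l1 → ∃ e : ℕ, 0 < e ∧ e < b ^ ((j + 1) * L) ∧
      nn (b.factorial * ((j + 2).factorial * g.coeff (j + 2)) * (b : ℝ) ^ l * e) ≤ 1 / (b : ℝ) ^ J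
  · right
    obtain ⟨Q, a, hQ1, hQ2, hQ3⟩ := dichotomy b ((j + 1) * L) J hb (by omega) (L * tr j) l1 (by omega) _ hcase
    have hf : 1 ≤ b.factorial := b.factorial_pos
    have hf' : 1 ≤ (j + 2).factorial := (j + 2).factorial_pos
    have hfr : (1 : ℝ) ≤ (b.factorial : ℝ) := by exact_mod_cast hf
    have hfr' : (1 : ℝ) ≤ ((j + 2).factorial : ℝ) := by exact_mod_cast hf'
    refine ⟨b.factorial * (j + 2).factorial * Q, a, Nat.mul_pos (Nat.mul_pos hf hf') hQ1, ?_, ?_⟩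
    · apply Nat.mul_le_mul_left
      refine hQ2.trans (le_of_eq ?_)
      congr 1
      ring
    · obtain ⟨Z, hZ⟩ : ∃ Z : ℝ, Z = b.factorial * (j + 2).factorial := ⟨_, rfl⟩
      have hZ1 : 1 ≤ Z := by rw [hZ]; nlinarith
      have hQr : (0 : ℝ) < Q := by exact_mod_cast hQ1
      have h4 : |g.coeff (j + 2) - a / ((b.factorial * (j + 2).factorial * Q : ℕ) : ℝ)| ≤
          |b.factorial * ((j + 2).factorial * g.coeff (j + 2)) - a / Q| := by
        have h2 : b.factorial * ((j + 2).factorial * g.coeff (j + 2)) - a / Q =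
            Z * (g.coeff (j + 2) - a / ((b.factorial * (j + 2).factorial * Q : ℕ) : ℝ)) := by
          have z1 : (b.factorial : ℝ) ≠ 0 := by linarith
          have z2 : ((j + 2).factorial : ℝ) ≠ 0 := by linarith
          rw [hZ]
          push_cast
          rw [mul_sub]
          congr 1
          · ring
          · rw [mul_div_assoc', mul_comm ((b.factorial : ℝ) * ((j + 2).factorial : ℝ)) (a : ℝ),
              mul_comm ((b.factorial : ℝ) * ((j + 2).factorial : ℝ)) (Q : ℝ),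
              mul_div_mul_right _ _ (mul_ne_zero z1 z2)]
        rw [h2, abs_mul, abs_of_pos (by linarith : (0 : ℝ) < Z)]
        have := abs_nonneg (g.coeff (j + 2) - a / ((b.factorial * (j + 2).factorial * Q : ℕ) : ℝ))
        nlinarith
      have h3 : |b.factorial * ((j + 2).factorial * g.coeff (j + 2)) - a / Q| * (b : ℝ) ^ ((j + 2) * k) ≤
          (b : ℝ) ^ ((j + 1 + 2 * (j + 1) ^ 2 + tr j) * L + 2 * (j + 1)) := by
        have h5 : (b : ℝ) ^ ((j + 2) * k) = (b : ℝ) ^ (J + l1) * (b : ℝ) ^ ((j + 1) * J + L * tr j) := by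
          rw [← pow_add]
          congr 1
          have : (j + 2) * J = (j + 1) * J + J := by ring
          omega
        rw [h5, ← mul_assoc]
        calc |b.factorial * ((j + 2).factorial * g.coeff (j + 2)) - a / Q| * (b : ℝ) ^ (J + l1) * (b : ℝ) ^ ((j + 1) * J + L * tr j) ≤
            (b : ℝ) ^ ((j + 1) * L) * (b : ℝ) ^ ((j + 1) * J + L * tr j) := mul_le_mul_of_nonneg_right hQ3 (by positivity)
          _ = _ := by rw [← pow_add, hJ]; congr 1; ring
      exact (mul_le_mul_of_nonneg_right h4 (by positivity)).trans h3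
  · left
    push Not at hcase
    obtain ⟨l, hl2, hl3, hl⟩ := hcase
    exact weyl_pos hb hη s L J (by omega) (1 - η / 2) hτ0 h1 hS j k i w hw g hg l hl2 (by omega) (by omega)
      (fun e he0 heL => hl e he0 heL)

/-- sums of powers, if the large values are few -/
theorem sum_moment (b M k c d p A F : ℕ) (hb : 2 ≤ b) (hc : 1 ≤ c) (V : ℕ → ℝ) (hV0 : ∀ t, 0 ≤ V t) (hV1 : ∀ t, V t ≤ 1)
    (Mj : ℕ → ℕ → Prop) (y D C₁ : ℝ) (hy0 : 0 ≤ y) (hy : y ≤ 1 / (b : ℝ) ^ (A + 1 + d * c)) (hD : 0 ≤ D) (hC : 0 ≤ C₁)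
    (hM : M ≤ F * b ^ (d * k))
    (hcnt : ∀ L, ∀ S : Finset ℕ, (∀ t ∈ S, t < M ∧ Mj L t) → (S.card : ℝ) ≤ C₁ * (b : ℝ) ^ (A * L))
    (hmin : ∀ t L, 2 ≤ L → c * L ≤ k → ¬ Mj L t → V t ^ p ≤ D * y ^ L) :
    ∑ t ∈ range M, V t ^ p ≤ C₁ * (b : ℝ) ^ (A * 2) + 2 * (D * C₁ * (b : ℝ) ^ A) + D * (F * (b : ℝ) ^ (d * c)) +
      F * (b : ℝ) ^ (d * (2 * c)) := by
  classical
  have hb2 : (2 : ℝ) ≤ b := by exact_mod_cast hb
  have hb0 : (0 : ℝ) < b := by linarith
  have hy1 : y ≤ 1 := hy.trans (by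
    rw [div_le_one (by positivity)]
    exact one_le_pow₀ (by linarith))
  have p1 : 0 ≤ C₁ * (b : ℝ) ^ (A * 2) := by positivity
  have p2 : 0 ≤ 2 * (D * C₁ * (b : ℝ) ^ A) := by positivity
  have p3 : 0 ≤ D * (F * (b : ℝ) ^ (d * c)) := by positivity
  have p4 : 0 ≤ F * (b : ℝ) ^ (d * (2 * c)) := by positivity
  rcases Nat.lt_or_ge k (2 * c) with hk | hk
  · calc ∑ t ∈ range M, V t ^ p ≤ ∑ t ∈ range M, (1 : ℝ) := sum_le_sum fun t _ => pow_le_one₀ (hV0 t) (hV1 t)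
      _ = M := by rw [sum_const, card_range, nsmul_eq_mul, mul_one]
      _ ≤ F * (b : ℝ) ^ (d * (2 * c)) := by
          have h1 : M ≤ F * b ^ (d * (2 * c)) :=
            hM.trans (Nat.mul_le_mul_left _ (Nat.pow_le_pow_right (by omega) (Nat.mul_le_mul_left _ hk.le)))
          exact_mod_cast h1
      _ ≤ _ := by linarith
  obtain ⟨χ, hχ⟩ : ∃ χ : ℕ → ℕ → ℝ, ∀ L t, χ L t = if Mj L t then 1 else 0 := ⟨_, fun _ _ => rfl⟩
  have hχ0 : ∀ L t, 0 ≤ χ L t := fun L t => by rw [hχ]; split_ifs <;> norm_num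
  have hpt : ∀ t, ∀ L, 2 ≤ L → c * L ≤ k → V t ^ p ≤ χ 2 t + ∑ l ∈ Ico 2 L, D * y ^ l * χ (l + 1) t + D * y ^ L := by
    intro t L hL
    induction L, hL using Nat.le_induction with
    | base =>
      intro h8
      rw [Ico_self, sum_empty, add_zero]
      by_cases h : Mj 2 t
      · rw [hχ, if_pos h]
        have h1 := pow_le_one₀ (n := p) (hV0 t) (hV1 t)
        have h2 := mul_nonneg hD (pow_nonneg hy0 2)
        linarith
      · have h1 := hmin t 2 le_rfl h8 h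
        have h2 := hχ0 2 t
        linarith
    | succ L hL ih =>
      intro h8
      have h1 := ih (le_trans (Nat.mul_le_mul_left _ (by omega)) h8)
      rw [sum_Ico_succ_top hL]
      by_cases h : Mj (L + 1) t
      · rw [hχ (L + 1), if_pos h, mul_one]
        have h2 := mul_nonneg hD (pow_nonneg hy0 (L + 1))
        linarith
      · have h1 := hmin t (L + 1) (by omega) h8 h
        have h2 := hχ0 2 t
        have h3 : 0 ≤ ∑ l ∈ Ico 2 L, D * y ^ l * χ (l + 1) t :=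
          sum_nonneg fun l _ => mul_nonneg (mul_nonneg hD (pow_nonneg hy0 _)) (hχ0 _ _)
        have h4 : 0 ≤ D * y ^ L * χ (L + 1) t := mul_nonneg (mul_nonneg hD (pow_nonneg hy0 _)) (hχ0 _ _)
        linarith
  obtain ⟨Lm, hLm⟩ : ∃ Lm, Lm = k / c := ⟨_, rfl⟩
  have hLm1 : c * Lm ≤ k := by rw [hLm]; exact Nat.mul_div_le k c
  have hLm2 : 2 ≤ Lm := by rw [hLm, Nat.le_div_iff_mul_le (by omega)]; exact hk
  have hLm3 : k < c * Lm + c := by
    rw [hLm]
    have := Nat.lt_mul_div_succ k (show 0 < c by omega)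
    rw [mul_add, mul_one] at this
    exact this
  have hsumχ : ∀ L, ∑ t ∈ range M, χ L t ≤ C₁ * (b : ℝ) ^ (A * L) := by
    intro L
    refine le_trans (le_of_eq ?_) (hcnt L ((range M).filter (Mj L)) fun t ht => ?_)
    · simp only [hχ]
      rw [sum_boole]
    · rw [mem_filter, mem_range] at ht
      exact ht
  have hsum := sum_le_sum (fun t (_ : t ∈ range M) => hpt t Lm hLm2 hLm1)
  refine hsum.trans ?_
  rw [sum_add_distrib, sum_add_distrib, sum_comm, sum_const, card_range, nsmul_eq_mul]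
  have hyA : y ≤ 1 / ((b : ℝ) ^ A * 2) := by
    refine hy.trans ?_
    apply one_div_le_one_div_of_le (by positivity)
    rw [pow_add, pow_add, pow_one]
    have h1 : (1 : ℝ) ≤ (b : ℝ) ^ (d * c) := one_le_pow₀ (by linarith)
    have h2 : (0 : ℝ) < (b : ℝ) ^ A := by positivity
    calc (b : ℝ) ^ A * 2 ≤ (b : ℝ) ^ A * b := mul_le_mul_of_nonneg_left hb2 h2.le
      _ = (b : ℝ) ^ A * b * 1 := (mul_one _).symm
      _ ≤ _ := mul_le_mul_of_nonneg_left h1 (by positivity)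
  have hyc : y ≤ 1 / (b : ℝ) ^ (d * c) := by
    refine hy.trans ?_
    apply one_div_le_one_div_of_le (by positivity)
    exact pow_le_pow_right₀ (by linarith) (by omega)
  have t1 : ∑ t ∈ range M, χ 2 t ≤ C₁ * (b : ℝ) ^ (A * 2) := hsumχ 2
  have t2 : ∑ l ∈ Ico 2 Lm, ∑ t ∈ range M, D * y ^ l * χ (l + 1) t ≤ 2 * (D * C₁ * (b : ℝ) ^ A) := by
    have h1 : ∀ l ∈ Ico 2 Lm, ∑ t ∈ range M, D * y ^ l * χ (l + 1) t ≤ (D * C₁ * (b : ℝ) ^ A) * (1 / 2) ^ l := by
      intro l _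
      rw [← mul_sum]
      calc D * y ^ l * ∑ t ∈ range M, χ (l + 1) t ≤ D * (1 / ((b : ℝ) ^ A * 2)) ^ l * (C₁ * (b : ℝ) ^ (A * (l + 1))) :=
            mul_le_mul (mul_le_mul_of_nonneg_left (pow_le_pow_left₀ hy0 hyA l) hD) (hsumχ _)
              (sum_nonneg fun t _ => hχ0 _ _) (by positivity)
        _ = (D * C₁ * (b : ℝ) ^ A) * (1 / 2) ^ l := by
            rw [mul_add, pow_add, pow_mul, mul_one]
            obtain ⟨z, hz⟩ : ∃ z : ℝ, z = (b : ℝ) ^ A := ⟨_, rfl⟩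
            have hz0 : z ≠ 0 := by rw [hz]; positivity
            rw [← hz]
            have h4 : (1 / (z * 2)) ^ l * z ^ l = (1 / 2) ^ l := by
              rw [← mul_pow]
              congr 1
              field_simp
            calc D * (1 / (z * 2)) ^ l * (C₁ * (z ^ l * z)) = D * C₁ * z * ((1 / (z * 2)) ^ l * z ^ l) := by ring
              _ = _ := by rw [h4]
    refine (sum_le_sum h1).trans ?_
    rw [← mul_sum, mul_comm]
    have h2 : ∑ l ∈ Ico 2 Lm, (1 / 2 : ℝ) ^ l ≤ 2 := by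
      calc ∑ l ∈ Ico 2 Lm, (1 / 2 : ℝ) ^ l ≤ ∑ l ∈ range Lm, (1 / 2 : ℝ) ^ l := by
            apply sum_le_sum_of_subset_of_nonneg
            · intro l hl
              rw [mem_Ico] at hl
              exact mem_range.2 hl.2
            · intro l _ _
              positivity
        _ ≤ 2 := by
            rw [geom_sum_eq (by norm_num)]
            have : (0 : ℝ) ≤ (1 / 2) ^ Lm := by positivity
            rw [div_le_iff_of_neg (by norm_num)]
            linarith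
    exact mul_le_mul_of_nonneg_right h2 (by positivity)
  have t3 : (M : ℝ) * (D * y ^ Lm) ≤ D * (F * (b : ℝ) ^ (d * c)) := by
    have h1 : (M : ℝ) ≤ F * ((b : ℝ) ^ (d * c)) ^ Lm * (b : ℝ) ^ (d * c) := by
      calc (M : ℝ) ≤ F * (b : ℝ) ^ (d * k) := by exact_mod_cast hM
        _ ≤ F * (b : ℝ) ^ (d * c * Lm + d * c) := by
            apply mul_le_mul_of_nonneg_left _ (Nat.cast_nonneg _)
            apply pow_le_pow_right₀ (by linarith)
            calc d * k ≤ d * (c * Lm + c) := Nat.mul_le_mul_left _ hLm3.le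
              _ = _ := by ring
        _ = _ := by rw [pow_add, pow_mul, mul_assoc]
    have h2 : ((b : ℝ) ^ (d * c)) ^ Lm * y ^ Lm ≤ 1 := by
      rw [← mul_pow]
      apply pow_le_one₀ (by positivity)
      calc (b : ℝ) ^ (d * c) * y ≤ (b : ℝ) ^ (d * c) * (1 / (b : ℝ) ^ (d * c)) := mul_le_mul_of_nonneg_left hyc (by positivity)
        _ = 1 := by rw [mul_one_div, div_self (by positivity)]
    calc (M : ℝ) * (D * y ^ Lm) ≤ (F * ((b : ℝ) ^ (d * c)) ^ Lm * (b : ℝ) ^ (d * c)) * (D * y ^ Lm) :=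
          mul_le_mul_of_nonneg_right h1 (mul_nonneg hD (pow_nonneg hy0 _))
      _ = (D * (F * (b : ℝ) ^ (d * c))) * (((b : ℝ) ^ (d * c)) ^ Lm * y ^ Lm) := by ring
      _ ≤ (D * (F * (b : ℝ) ^ (d * c))) * 1 := mul_le_mul_of_nonneg_left h2 p3
      _ = _ := mul_one _
  linarith

end Pool.Agent.T9h51.PD
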