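import Pool.Agent.TH872.Sq.W4

/-!
# The Weyl inequality for polynomials of arbitrary degree at integers with independent random digits
-/

set_option autoImplicit false

namespace Pool.Agent.T9h51.PD

open Finset Polynomial
open Pool.Agent.TH872.Sq
open Pool.Agent.H807R2.Dav

/-- the exponential sum of a polynomial over integers with random digits -/
noncomputable def W (b : ℕ) (w : ℕ → ℕ → ℝ) (i k : ℕ) (g : ℝ[X]) : ℝ :=
  ‖∑ n ∈ range (b ^ k), ((P b w i k n : ℝ) : ℂ) * ee (g.eval (n : ℝ))‖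

lemma W_nonneg (b : ℕ) (w : ℕ → ℕ → ℝ) (i k : ℕ) (g : ℝ[X]) : 0 ≤ W b w i k g := norm_nonneg _

lemma W_le_one {b : ℕ} (hb : 0 < b) {η : ℝ} {w : ℕ → ℕ → ℝ} (hw : Dig b η w) (i k : ℕ) (g : ℝ[X]) :
    W b w i k g ≤ 1 := norm_avg hb hw i k _ 1 (fun n => by rw [norm_ee])

/-- the inequality of Cauchy -/
lemma cauchy (U V : Finset ℕ) (p q : ℕ → ℝ) (hp : ∀ u, 0 ≤ p u) (hq : ∀ v, 0 ≤ q v) (hq1 : ∑ v ∈ V, q v = 1)
    (F : ℕ → ℕ → ℝ) :
    ‖∑ u ∈ U, ((p u : ℝ) : ℂ) * ∑ v ∈ V, ((q v : ℝ) : ℂ) * ee (F u v)‖ ^ 2 ≤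
      ∑ u' ∈ U, ∑ u ∈ U, p u' * p u * ‖∑ v ∈ V, ((q v : ℝ) : ℂ) * ee (F u v - F u' v)‖ := by
  have e1 : ∑ u ∈ U, ((p u : ℝ) : ℂ) * ∑ v ∈ V, ((q v : ℝ) : ℂ) * ee (F u v) =
      ∑ v ∈ V, ((q v : ℝ) : ℂ) * ∑ u ∈ U, ((p u : ℝ) : ℂ) * ee (F u v) := by
    simp only [mul_sum]
    rw [sum_comm]
    apply sum_congr rfl
    intro v _
    apply sum_congr rfl
    intro u _
    ring
  have e2 : ‖∑ v ∈ V, ((q v : ℝ) : ℂ) * ∑ u ∈ U, ((p u : ℝ) : ℂ) * ee (F u v)‖ ≤
      ∑ v ∈ V, q v * ‖∑ u ∈ U, ((p u : ℝ) : ℂ) * ee (F u v)‖ := by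
    refine (norm_sum_le _ _).trans (le_of_eq ?_)
    apply sum_congr rfl
    intro v _
    rw [norm_mul, Complex.norm_real, Real.norm_of_nonneg (hq v)]
  have e3 : (∑ v ∈ V, q v * ‖∑ u ∈ U, ((p u : ℝ) : ℂ) * ee (F u v)‖) ^ 2 ≤
      ∑ v ∈ V, q v * ‖∑ u ∈ U, ((p u : ℝ) : ℂ) * ee (F u v)‖ ^ 2 :=
    Real.pow_arith_mean_le_arith_mean_pow _ _ _ (fun v _ => hq v) hq1 (fun v _ => norm_nonneg _) 2
  have e4 : ((∑ v ∈ V, q v * ‖∑ u ∈ U, ((p u : ℝ) : ℂ) * ee (F u v)‖ ^ 2 : ℝ) : ℂ) =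
      ∑ u' ∈ U, ∑ u ∈ U, ((p u' : ℝ) : ℂ) * ((p u : ℝ) : ℂ) * ∑ v ∈ V, ((q v : ℝ) : ℂ) * ee (F u v - F u' v) := by
    push_cast
    have f1 : ∀ v : ℕ, ((‖∑ u ∈ U, ((p u : ℝ) : ℂ) * ee (F u v)‖ : ℂ)) ^ 2 =
        ∑ u' ∈ U, ∑ u ∈ U, ((p u' : ℝ) : ℂ) * ((p u : ℝ) : ℂ) * ee (F u v - F u' v) := by
      intro v
      rw [← Complex.mul_conj', map_sum, sum_mul_sum, sum_comm]
      apply sum_congr rfl
      intro u' _
      apply sum_congr rfl
      intro u _
      rw [map_mul, Complex.conj_ofReal, Pool.Agent.H373R2.T7.conj_ee, sub_eq_add_neg, ee_add]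
      ring
    simp only [f1, mul_sum]
    rw [sum_comm]
    apply sum_congr rfl
    intro u' _
    rw [sum_comm]
    apply sum_congr rfl
    intro u _
    apply sum_congr rfl
    intro v _
    ring
  have hnn : 0 ≤ ∑ v ∈ V, q v * ‖∑ u ∈ U, ((p u : ℝ) : ℂ) * ee (F u v)‖ ^ 2 :=
    sum_nonneg fun v _ => mul_nonneg (hq v) (sq_nonneg _)
  rw [e1]
  refine (pow_le_pow_left₀ (norm_nonneg _) e2 2).trans (e3.trans ?_)
  rw [← Real.norm_of_nonneg hnn, ← Complex.norm_real, e4]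
  refine (norm_sum_le _ _).trans ?_
  apply sum_le_sum
  intro u' _
  refine (norm_sum_le _ _).trans (le_of_eq ?_)
  apply sum_congr rfl
  intro u _
  rw [norm_mul, norm_mul, Complex.norm_real, Complex.norm_real, Real.norm_of_nonneg (hp u),
    Real.norm_of_nonneg (hp u')]

lemma coeff_shift (g : ℝ[X]) (a c : ℝ) (n : ℕ) :
    (g.comp (C a + C c * X)).coeff n = (hasseDeriv n g).eval a * c ^ n := by
  have h : g.comp (C a + C c * X) = (taylor a g).comp (C c * X) := by
    rw [taylor_apply, comp_assoc]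
    congr 1
    simp [add_comm]
  rw [h, comp_C_mul_X_coeff, taylor_coeff]

lemma eval_hasse_top (g : ℝ[X]) (d : ℕ) (hg : g.natDegree ≤ d) (a : ℝ) : (hasseDeriv d g).eval a = g.coeff d := by
  have h1 : (hasseDeriv d g).natDegree < 1 := by
    have := natDegree_hasseDeriv_le g d
    omega
  rw [eval_eq_sum_range' h1, sum_range_one, hasseDeriv_coeff, zero_add, Nat.choose_self]
  simp

lemma eval_hasse_next (g : ℝ[X]) (d : ℕ) (hg : g.natDegree ≤ d + 1) (a : ℝ) :
    (hasseDeriv d g).eval a = g.coeff d + (d + 1) * g.coeff (d + 1) * a := by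
  have h1 : (hasseDeriv d g).natDegree < 2 := by
    have := natDegree_hasseDeriv_le g d
    omega
  rw [eval_eq_sum_range' h1, sum_range_succ, sum_range_one, hasseDeriv_coeff, hasseDeriv_coeff, zero_add,
    Nat.choose_self, add_comm 1 d, Nat.choose_succ_self_right]
  push_cast
  ring

/-- the difference polynomial -/
noncomputable def dp (g : ℝ[X]) (a a' c : ℝ) : ℝ[X] := g.comp (C a + C c * X) - g.comp (C a' + C c * X)

lemma dp_eval (g : ℝ[X]) (a a' c x : ℝ) : (dp g a a' c).eval x = g.eval (a + c * x) - g.eval (a' + c * x) := by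
  unfold dp
  simp [eval_comp]

lemma dp_coeff (g : ℝ[X]) (d : ℕ) (hg : g.natDegree ≤ d + 1) (a a' c : ℝ) :
    (dp g a a' c).coeff d = (d + 1) * g.coeff (d + 1) * (a - a') * c ^ d := by
  unfold dp
  rw [coeff_sub, coeff_shift, coeff_shift, eval_hasse_next g d hg, eval_hasse_next g d hg]
  ring

lemma dp_degree (g : ℝ[X]) (d : ℕ) (hg : g.natDegree ≤ d + 1) (a a' c : ℝ) : (dp g a a' c).natDegree ≤ d := by
  rw [natDegree_le_iff_coeff_eq_zero]
  intro n hn
  unfold dp
  rw [coeff_sub, coeff_shift, coeff_shift]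
  rcases Nat.lt_or_ge (d + 1) n with h | h
  · rw [hasseDeriv_eq_zero_of_lt_natDegree g n (by omega)]
    simp
  · have h1 : n = d + 1 := by omega
    subst h1
    rw [eval_hasse_top g (d + 1) hg, eval_hasse_top g (d + 1) hg, sub_self]

/-- triangular numbers: `tr j = 1 + 2 + ... + (j + 1)` -/
def tr : ℕ → ℕ
  | 0 => 1
  | j + 1 => tr j + (j + 2)

lemma two_tr (j : ℕ) : 2 * tr j = (j + 1) * (j + 2) := by
  induction j with
  | zero => rfl
  | succ j ih =>
    rw [tr, mul_add, ih]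
    ring

/-- one differencing step -/
lemma diff_step {b : ℕ} (hb : 2 ≤ b) {η : ℝ} {w : ℕ → ℕ → ℝ} (hw : Dig b η w) (i r L m : ℕ) (g : ℝ[X])
    (E : ℕ) (hE : 1 ≤ E) (B D : ℝ) (hB : 0 ≤ B) (hD : D = (1 - η) ^ L + B)
    (h : ∀ (x : ℕ) (u u' : ℕ), u < b ^ L → u' < b ^ L → u ≠ u' →
      W b w (i + r + L) m (dp g (x + b ^ r * u) (x + b ^ r * u') (b ^ (r + L))) ^ E ≤ B) :
    W b w i (r + (L + m)) g ^ (2 * E) ≤ D := by
  have hb0 : 0 < b := by omega
  have hη1 := eta_le hw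
  have hD0 : 0 ≤ D := by rw [hD]; have := pow_nonneg (show 0 ≤ 1 - η by linarith) L; linarith
  have hroot : (D ^ ((((2 * E : ℕ) : ℝ))⁻¹)) ^ (2 * E) = D := Real.rpow_inv_natCast_pow hD0 (by omega)
  refine le_trans (pow_le_pow_left₀ (W_nonneg _ _ _ _ _) ?_ (2 * E)) (le_of_eq hroot)
  unfold W
  rw [ex_split b hb0 w i r (L + m) (fun n => ee (g.eval (n : ℝ)))]
  apply norm_avg hb0 hw
  intro x
  rw [ex_split b hb0 w (i + r) L m (fun y => ee (g.eval ((x + b ^ r * y : ℕ) : ℝ)))]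
  apply le_of_pow_le_pow_left₀ (by omega : 2 * E ≠ 0) (Real.rpow_nonneg hD0 _)
  rw [hroot]
  have h1 := cauchy (range (b ^ L)) (range (b ^ m)) (P b w (i + r) L) (P b w (i + r + L) m) (P_nonneg hw _ _)
    (P_nonneg hw _ _) (P_sum hb0 hw _ _) (fun u y => g.eval ((x + b ^ r * (u + b ^ L * y) : ℕ) : ℝ))
  have e1 : ∀ u u' : ℕ, ‖∑ v ∈ range (b ^ m), ((P b w (i + r + L) m v : ℝ) : ℂ) *
      ee (g.eval ((x + b ^ r * (u + b ^ L * v) : ℕ) : ℝ) - g.eval ((x + b ^ r * (u' + b ^ L * v) : ℕ) : ℝ))‖ =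
      W b w (i + r + L) m (dp g (x + b ^ r * u) (x + b ^ r * u') (b ^ (r + L))) := by
    intro u u'
    unfold W
    congr 1
    apply sum_congr rfl
    intro v _
    rw [dp_eval]
    congr 3 <;> · congr 1; push_cast; ring
  simp only [e1] at h1
  rw [pow_mul]
  refine (pow_le_pow_left₀ (sq_nonneg _) h1 E).trans ?_
  have h2 : (∑ u' ∈ range (b ^ L), ∑ u ∈ range (b ^ L), P b w (i + r) L u' * P b w (i + r) L u *
      W b w (i + r + L) m (dp g (x + b ^ r * u) (x + b ^ r * u') (b ^ (r + L)))) ^ E ≤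
      ∑ u' ∈ range (b ^ L), ∑ u ∈ range (b ^ L), P b w (i + r) L u' * P b w (i + r) L u *
        W b w (i + r + L) m (dp g (x + b ^ r * u) (x + b ^ r * u') (b ^ (r + L))) ^ E := by
    rw [← sum_product', ← sum_product']
    apply Real.pow_arith_mean_le_arith_mean_pow
    · intro q _
      exact mul_nonneg (P_nonneg hw _ _ _) (P_nonneg hw _ _ _)
    · rw [Finset.sum_product]
      simp only [← mul_sum, P_sum hb0 hw, mul_one]
    · intro q _
      exact W_nonneg _ _ _ _ _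
  refine h2.trans ?_
  have h3 : ∀ u' ∈ range (b ^ L), ∑ u ∈ range (b ^ L), P b w (i + r) L u' * P b w (i + r) L u *
        W b w (i + r + L) m (dp g (x + b ^ r * u) (x + b ^ r * u') (b ^ (r + L))) ^ E ≤
      P b w (i + r) L u' * ((1 - η) ^ L + B) := by
    intro u' hu'
    have h4 : ∀ u ∈ range (b ^ L), P b w (i + r) L u' * P b w (i + r) L u *
        W b w (i + r + L) m (dp g (x + b ^ r * u) (x + b ^ r * u') (b ^ (r + L))) ^ E ≤
        P b w (i + r) L u' * ((if u = u' then P b w (i + r) L u else 0) + P b w (i + r) L u * B) := by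
      intro u hu
      rw [mul_assoc]
      apply mul_le_mul_of_nonneg_left _ (P_nonneg hw _ _ _)
      have h5 := P_nonneg hw (i + r) L u
      split_ifs with huu
      · have h6 : W b w (i + r + L) m (dp g (x + b ^ r * u) (x + b ^ r * u') (b ^ (r + L))) ^ E ≤ 1 :=
          pow_le_one₀ (W_nonneg _ _ _ _ _) (W_le_one hb0 hw _ _ _)
        nlinarith [mul_nonneg h5 hB]
      · rw [zero_add]
        exact mul_le_mul_of_nonneg_left (h x u u' (mem_range.1 hu) (mem_range.1 hu') huu) h5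
    refine (sum_le_sum h4).trans ?_
    rw [← mul_sum]
    apply mul_le_mul_of_nonneg_left _ (P_nonneg hw _ _ _)
    rw [sum_add_distrib, ← sum_mul, P_sum hb0 hw, one_mul, sum_ite_eq', if_pos hu']
    linarith [P_le hw (i + r) L u']
  refine (sum_le_sum h3).trans ?_
  rw [← sum_mul, P_sum hb0 hw, one_mul, hD]

/-- the Weyl inequality at a given position -/
theorem weyl_pos {b : ℕ} (hb : 2 ≤ b) {η : ℝ} (hη : 0 < η) (s L J : ℕ) (hs : 1 ≤ s) (τ : ℝ) (hτ0 : 0 ≤ τ)
    (h1 : (1 - η) ^ L ≤ τ ^ L) (hS : (1 - η) ^ L * (1 + 2 * b * (g0 b η) ^ s) ^ J ≤ τ ^ L) :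
    ∀ (j k i : ℕ) (w : ℕ → ℕ → ℝ), Dig b η w → ∀ (g : ℝ[X]), g.natDegree ≤ j + 2 →
      ∀ l, L * tr j ≤ l → l + (j + 2) * J + L * tr j ≤ (j + 2) * k → J + (j + 1) * L ≤ k →
      (∀ e : ℕ, 0 < e → e < b ^ ((j + 1) * L) →
        1 / (b : ℝ) ^ J < nn (b.factorial * ((j + 2).factorial * g.coeff (j + 2)) * (b : ℝ) ^ l * e)) →
      W b w i k g ^ (2 ^ (j + 1) * s) ≤ (j + 1) * τ ^ L := by
  intro j
  induction j with
  | zero =>
    intro k i w hw g hg l hl1 hl2 hk hx
    have hroot : ((τ ^ L) ^ ((((2 * s : ℕ) : ℝ))⁻¹)) ^ (2 * s) = τ ^ L :=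
      Real.rpow_inv_natCast_pow (pow_nonneg hτ0 _) (by omega)
    obtain ⟨j0, hj0⟩ : ∃ j0, j0 = min l (k - J) := ⟨_, rfl⟩
    obtain ⟨r, hr⟩ : ∃ r, r = l - j0 := ⟨_, rfl⟩
    obtain ⟨m₁, hm₁⟩ : ∃ m₁, m₁ = j0 - r - L := ⟨_, rfl⟩
    obtain ⟨m₂, hm₂⟩ : ∃ m₂, m₂ = k - J - j0 := ⟨_, rfl⟩
    simp only [tr, mul_one, zero_add, one_mul] at hl1 hl2 hk hx
    have hk2 : r + (L + (m₁ + (J + m₂))) = k := by omega
    have hl3 : r + (r + (L + m₁)) = l := by omega
    have hmain := blocks hb hη hw i r L m₁ J m₂ s (by omega) (g.coeff 2) (g.coeff 1) ((τ ^ L) ^ ((((2 * s : ℕ) : ℝ))⁻¹))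
      (Real.rpow_nonneg (pow_nonneg hτ0 _) _) (by
      rw [hroot]
      exact hS) (by
      intro e he0 heL
      have h3 := hx e he0 heL
      rw [hl3]
      refine lt_of_lt_of_eq h3 ?_
      congr 1
      rw [show (2 : ℕ).factorial = 2 from rfl]
      push_cast
      ring)
    rw [hk2] at hmain
    have e1 : W b w i k g = ‖∑ n ∈ range (b ^ k), ((P b w i k n : ℝ) : ℂ) * ee (g.coeff 2 * n ^ 2 + g.coeff 1 * n)‖ := by
      have e2 : ∑ n ∈ range (b ^ k), ((P b w i k n : ℝ) : ℂ) * ee (g.eval (n : ℝ)) =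
          ee (g.coeff 0) * ∑ n ∈ range (b ^ k), ((P b w i k n : ℝ) : ℂ) * ee (g.coeff 2 * n ^ 2 + g.coeff 1 * n) := by
        rw [mul_sum]
        apply sum_congr rfl
        intro n _
        have e3 : g.eval (n : ℝ) = g.coeff 0 + (g.coeff 2 * n ^ 2 + g.coeff 1 * n) := by
          rw [eval_eq_sum_range' (n := 3) (by omega), sum_range_succ, sum_range_succ, sum_range_one]
          ring
        rw [e3, ee_add]
        ring
      unfold W
      rw [e2, norm_mul, norm_ee, one_mul]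
    rw [e1]
    have h4 := (pow_le_pow_left₀ (norm_nonneg _) hmain (2 * s)).trans (le_of_eq hroot)
    rw [zero_add, pow_one, Nat.cast_zero, zero_add, one_mul]
    exact h4
  | succ j ih =>
    intro k i w hw g hg l hl1 hl2 hk hx
    have hb0 : 0 < b := by omega
    have h2tr := two_tr j
    obtain ⟨r, hr⟩ : ∃ r, r = l + (j + 2) * J + L * tr j - (j + 2) * k := ⟨_, rfl⟩
    rw [tr] at hl1 hl2
    have hr1 : r + J + L * (j + 2) ≤ k := by
      have e1 : (j + 1 + 2) * J = (j + 2) * J + J := by ring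
      have e2 : (j + 1 + 2) * k = (j + 2) * k + k := by ring
      have e3 : L * (tr j + (j + 2)) = L * tr j + L * (j + 2) := by ring
      have e4 : (j + 1 + 1) * L = L * (j + 2) := by ring
      rw [e1, e2, e3] at hl2
      rw [e4] at hk
      omega
    obtain ⟨m, hm⟩ : ∃ m, m = k - (r + L) := ⟨_, rfl⟩
    have hL2 : L * (j + 2) = L + (j + 1) * L := by ring
    have hkm : r + (L + m) = k := by omega
    have hsub : (r + L) * (j + 2) + r + L * tr j ≤ l := by
      rcases Nat.eq_zero_or_pos r with h0 | h0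
      · rw [h0]
        have e3 : L * (tr j + (j + 2)) = L * tr j + L * (j + 2) := by ring
        rw [e3] at hl1
        have e4 : (0 + L) * (j + 2) = L * (j + 2) := by ring
        omega
      · have h5 : l + (j + 2) * J + L * tr j = r + (j + 2) * k := by omega
        have h6 : (r + J + L * (j + 2)) * (j + 2) ≤ k * (j + 2) := Nat.mul_le_mul_right _ hr1
        have h7 : (L * (j + 2)) * (j + 2) = L * (2 * tr j) + L * (j + 2) := by rw [h2tr]; ring
        have h8 : (r + J + L * (j + 2)) * (j + 2) = (j + 2) * J + (r * (j + 2) + (L * (2 * tr j) + L * (j + 2))) := by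
          rw [← h7]; ring
        have h9 : k * (j + 2) = (j + 2) * k := by ring
        have h10 : (r + L) * (j + 2) = r * (j + 2) + L * (j + 2) := by ring
        have h11 : L * (2 * tr j) = L * tr j + L * tr j := by ring
        rw [h8, h9] at h6
        omega
    obtain ⟨l', hl'⟩ : ∃ l', l' = l - ((r + L) * (j + 2) + r) := ⟨_, rfl⟩
    have hll : l = (r + L) * (j + 2) + r + l' := by omega
    have hl'1 : L * tr j ≤ l' := by omega
    have hl'2 : l' + (j + 2) * J + L * tr j ≤ (j + 2) * m := by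
      have h5 : (j + 2) * k = (j + 2) * m + (r + L) * (j + 2) := by rw [← hkm]; ring
      omega
    have hB0 : (0 : ℝ) ≤ (j + 1) * τ ^ L := by positivity
    have key := diff_step hb hw i r L m g (2 ^ (j + 1) * s) (Nat.mul_pos (by positivity) hs) ((j + 1) * τ ^ L) _ hB0 rfl (by
      intro x u u' hu hu' huu
      apply ih m (i + r + L) w hw _ (dp_degree g (j + 2) (by omega) _ _ _) l' hl'1 hl'2 (by omega)
      intro e he0 heL
      rw [dp_coeff g (j + 2) (by omega)]
      -- the difference of the blocks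
      obtain ⟨D, hD⟩ : ∃ D : ℕ, D = ((u : ℤ) - u').natAbs := ⟨_, rfl⟩
      have hD0 : 0 < D := by
        rw [hD]
        apply Int.natAbs_pos.2
        intro h
        apply huu
        have : (u : ℤ) = u' := by linarith
        exact_mod_cast this
      have hDL : D < b ^ L := by omega
      have hDe : D * e < b ^ ((j + 1 + 1) * L) := by
        have e5 : (j + 1 + 1) * L = L + (j + 1) * L := by ring
        rw [e5, pow_add]
        exact Nat.mul_lt_mul'' hDL heL
      have h5 := hx (D * e) (Nat.mul_pos hD0 he0) hDe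
      refine lt_of_lt_of_eq h5 ?_
      have hnn : ∀ y : ℝ, nn (-y) = nn y := by
        intro y
        apply le_antisymm
        · refine (nn_le _ (-(round y))).trans (le_of_eq ?_)
          unfold nn
          rw [← abs_neg]
          congr 1
          push_cast
          ring
        · refine (nn_le _ (-(round (-y)))).trans (le_of_eq ?_)
          unfold nn
          rw [← abs_neg]
          congr 1
          push_cast
          ring
      have hfac : (((j + 1 + 2).factorial : ℕ) : ℝ) = ((j + 2 : ℕ) + 1) * ((j + 2).factorial : ℝ) := by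
        rw [show j + 1 + 2 = (j + 2) + 1 by ring, Nat.factorial_succ]
        push_cast
        ring
      have hpow : (b : ℝ) ^ l = (b : ℝ) ^ r * ((b : ℝ) ^ (r + L)) ^ (j + 2) * (b : ℝ) ^ l' := by
        rw [hll, ← pow_mul, ← pow_add, ← pow_add]
        congr 1
        ring
      have hco : g.coeff (j + 1 + 2) = g.coeff (j + 2 + 1) := by rw [show j + 1 + 2 = j + 2 + 1 by ring]
      have hval : (b.factorial : ℝ) * (((j + 2).factorial : ℝ) * (((j + 2 : ℕ) + 1) * g.coeff (j + 2 + 1) *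
          ((x : ℝ) + b ^ r * u - (x + b ^ r * u')) * (b ^ (r + L)) ^ (j + 2))) * (b : ℝ) ^ l' * e =
          (b.factorial : ℝ) * (((j + 1 + 2).factorial : ℝ) * g.coeff (j + 1 + 2)) * (b : ℝ) ^ l * (((u : ℝ) - u') * e) := by
        rw [hfac, hpow, hco]
        ring
      rw [hval]
      rcases le_total (u' : ℤ) u with h6 | h6
      · have h7 : ((D * e : ℕ) : ℝ) = ((u : ℝ) - u') * e := by
          have h8 : (D : ℤ) = u - u' := by rw [hD]; exact Int.natAbs_of_nonneg (by linarith)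
          have h9 : (D : ℝ) = (u : ℝ) - u' := by exact_mod_cast h8
          push_cast
          rw [h9]
        rw [h7]
      · have h7 : ((D * e : ℕ) : ℝ) = -(((u : ℝ) - u') * e) := by
          have h8 : (D : ℤ) = -(u - u') := by rw [hD]; exact Int.ofNat_natAbs_of_nonpos (by linarith)
          have h9 : (D : ℝ) = -((u : ℝ) - u') := by exact_mod_cast h8
          push_cast
          rw [h9]
          ring
        rw [h7, mul_neg, hnn])
    rw [hkm] at key
    have e6 : 2 ^ (j + 1 + 1) * s = 2 * (2 ^ (j + 1) * s) := by rw [pow_succ]; ring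
    rw [e6]
    refine key.trans ?_
    push_cast
    nlinarith

end Pool.Agent.T9h51.PD
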